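import Pool.Agent.TRL.Quot

/-!
# TRL, module TU: totally unimodular coordinates, no Fano configuration (helper38)
-/

set_option autoImplicit false

open Submodule Module

namespace Pool.Agent.TRL

section

variable {V : Type} [AddCommGroup V] [Module (ZMod 2) V]

/-- **Unimodular coordinates** in a basis `t` of the span of `X` which consists of vectors of `X`: the
integral vectors `L v` have entries `0`, `1`, `-1`, reduce to the coordinates of `v`, and all
determinants of `r` of them are `0`, `1` or `-1`. -/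
theorem Reg.tu {X : Finset V} (h : Reg X) {r : ℕ} {t : Fin r → V}
    (ht : LinearIndependent (ZMod 2) t) (htX : ∀ i, t i ∈ X)
    (hspan : span (ZMod 2) (Set.range t) = span (ZMod 2) (X : Set V)) :
    ∃ L : V → Fin r → ℤ, (∀ i, L (t i) = Pi.single i 1) ∧
      (∀ v ∈ X, v = ∑ i, ((L v i : ℤ) : ZMod 2) • t i) ∧ (∀ v ∈ X, ∀ i, |L v i| ≤ 1) ∧
      ∀ x : Fin r → V, (∀ i, x i ∈ X) →
        (Matrix.of fun i j => L (x i) j).det = 0 ∨ (Matrix.of fun i j => L (x i) j).det = 1 ∨
        (Matrix.of fun i j => L (x i) j).det = -1 := by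
  classical
  obtain ⟨E, _, w, C, hL, hX⟩ := h
  choose e he using hX
  have hwt : (fun i => w (e (t i) (htX i))) = t := funext fun i => he _ _
  have hti : LinearIndependent (ZMod 2) fun i => w (e (t i) (htX i)) := by
    rw [hwt]
    exact ht
  have hmem : ∀ v (hv : v ∈ X), ∃ m : Fin r → ℤ, v = ∑ i, ((m i : ℤ) : ZMod 2) • t i ∧
      (Pi.single (e v hv) 1 : E → ℤ) - ∑ i, m i • (Pi.single (e (t i) (htX i)) 1 : E → ℤ) ∈ C ∧
      ∀ i, |m i| ≤ 1 := by
    intro v hv
    have h1 : w (e v hv) ∈ span (ZMod 2) (Set.range t) := by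
      rw [he, hspan]
      exact subset_span hv
    obtain ⟨y, hy⟩ := (mem_span_range_iff_exists_fun (ZMod 2)).1 h1
    have hy2 : w (e v hv) = ∑ i, y i • w (e (t i) (htX i)) := by
      rw [← hy]
      refine Finset.sum_congr rfl fun i _ => ?_
      rw [he]
    obtain ⟨m, hm1, hm2, hm3⟩ := Lift_rel hL hti (e v hv) y hy2
    refine ⟨m, ?_, hm2, hm3⟩
    rw [← he v hv, ← hy]
    refine Finset.sum_congr rfl fun i _ => ?_
    rw [hm1]
  choose m hm1 hm2 hm3 using hmem
  obtain ⟨L, hL'⟩ : ∃ L : V → Fin r → ℤ, ∀ v (hv : v ∈ X), L v = m v hv :=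
    ⟨fun v => if h : v ∈ X then m v h else 0, fun v hv => dif_pos hv⟩
  refine ⟨L, fun k => ?_, fun v hv => ?_, fun v hv i => ?_, fun x hx => ?_⟩
  · rw [hL' _ (htX k)]
    have h1 : m (t k) (htX k) - Pi.single k 1 = 0 := by
      refine Lift_unique hL hti _ ?_
      have h2 : ∑ i, (m (t k) (htX k) - Pi.single k 1 : Fin r → ℤ) i •
          (Pi.single (e (t i) (htX i)) 1 : E → ℤ) =
          - ((Pi.single (e (t k) (htX k)) 1 : E → ℤ) -
            ∑ i, m (t k) (htX k) i • (Pi.single (e (t i) (htX i)) 1 : E → ℤ)) := by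
        simp only [Pi.sub_apply, sub_smul, Finset.sum_sub_distrib, neg_sub]
        congr 1
        rw [Finset.sum_eq_single k]
        · rw [Pi.single_eq_same, one_smul]
        · intro i _ hi
          rw [Pi.single_eq_of_ne hi, zero_smul]
        · intro h
          exact absurd (Finset.mem_univ _) h
      rw [h2]
      exact C.neg_mem (hm2 _ _)
    exact sub_eq_zero.1 h1
  · conv_lhs => rw [hm1 v hv]
    rw [hL' v hv]
  · rw [hL' v hv]
    exact hm3 v hv i
  · refine Lift_det hL hti (fun i => e (x i) (hx i)) (fun i => L (x i)) (fun i => ?_) fun i => ?_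
    · rw [he, hwt, hspan]
      exact subset_span (hx i)
    · rw [hL' _ (hx i)]
      exact hm2 _ _

end

end Pool.Agent.TRL
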