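import Pool.Agent.TRL.TU

/-!
# TRL, module Fano: a regular set contains neither the Fano configuration nor its dual (helper38)
-/

set_option autoImplicit false

open Submodule Module

namespace Pool.Agent.TRL

private theorem Fano_arith : ∀ p₀ ∈ ({1, -1} : Finset ℤ), ∀ p₁ ∈ ({1, -1} : Finset ℤ),
    ∀ q₀ ∈ ({1, -1} : Finset ℤ), ∀ q₂ ∈ ({1, -1} : Finset ℤ), ∀ s₁ ∈ ({1, -1} : Finset ℤ),
    ∀ s₂ ∈ ({1, -1} : Finset ℤ), ∀ u₀ ∈ ({1, -1} : Finset ℤ), ∀ u₁ ∈ ({1, -1} : Finset ℤ),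
    ∀ u₂ ∈ ({1, -1} : Finset ℤ),
    (- p₀ * q₂ * s₁ - p₁ * q₀ * s₂) ∈ ({0, 1, -1} : Finset ℤ) →
    (u₀ * p₁ - u₁ * p₀) ∈ ({0, 1, -1} : Finset ℤ) →
    (u₀ * q₂ - u₂ * q₀) ∈ ({0, 1, -1} : Finset ℤ) →
    (u₁ * s₂ - u₂ * s₁) ∈ ({0, 1, -1} : Finset ℤ) → False := by
  decide

private theorem Fano_arith2 : ∀ p₀ ∈ ({1, -1} : Finset ℤ), ∀ p₁ ∈ ({1, -1} : Finset ℤ),
    ∀ p₃ ∈ ({1, -1} : Finset ℤ), ∀ q₀ ∈ ({1, -1} : Finset ℤ), ∀ q₂ ∈ ({1, -1} : Finset ℤ),
    ∀ q₃ ∈ ({1, -1} : Finset ℤ), ∀ s₁ ∈ ({1, -1} : Finset ℤ), ∀ s₂ ∈ ({1, -1} : Finset ℤ),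
    ∀ s₃ ∈ ({1, -1} : Finset ℤ),
    (p₀ * q₃ - p₃ * q₀) ∈ ({0, 1, -1} : Finset ℤ) →
    (p₁ * s₃ - p₃ * s₁) ∈ ({0, 1, -1} : Finset ℤ) →
    (q₂ * s₃ - q₃ * s₂) ∈ ({0, 1, -1} : Finset ℤ) →
    (- p₀ * q₂ * s₁ - p₁ * q₀ * s₂) ∈ ({0, 1, -1} : Finset ℤ) → False := by
  decide

private theorem Fano_odd {a : ℤ} (h : |a| ≤ 1) (h2 : ((a : ℤ) : ZMod 2) = 1) :
    a ∈ ({1, -1} : Finset ℤ) := by
  have h0 : a ≠ 0 := by
    rintro rfl
    rw [Int.cast_zero] at h2
    exact zero_ne_one h2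
  rw [abs_le] at h
  rw [Finset.mem_insert, Finset.mem_singleton]
  omega

private theorem Fano_even {a : ℤ} (h : |a| ≤ 1) (h2 : ((a : ℤ) : ZMod 2) = 0) : a = 0 := by
  obtain ⟨b, rfl⟩ := (ZMod.intCast_zmod_eq_zero_iff_dvd a 2).1 h2
  rw [abs_le] at h
  omega

private theorem Fano_tri {a : ℤ} (h : a = 0 ∨ a = 1 ∨ a = -1) : a ∈ ({0, 1, -1} : Finset ℤ) := by
  rw [Finset.mem_insert, Finset.mem_insert, Finset.mem_singleton]
  exact h

section

variable {V : Type} [AddCommGroup V] [Module (ZMod 2) V] [DecidableEq V]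

/-- **No Fano configuration** -/
theorem Reg.no_fano {X : Finset V} (h : Reg X) {a b c : V}
    (hli : LinearIndependent (ZMod 2) ![a, b, c]) :
    ¬ ({a, b, c, a + b, a + c, b + c, a + b + c} : Finset V) ⊆ X := by
  intro hsub
  obtain ⟨Y, hY⟩ : ∃ Y : Finset V, Y = {a, b, c, a + b, a + c, b + c, a + b + c} := ⟨_, rfl⟩
  rw [← hY] at hsub
  have hYR : Reg Y := h.mono hsub
  have ha : a ∈ Y := by rw [hY]; simp
  have hb : b ∈ Y := by rw [hY]; simp
  have hc : c ∈ Y := by rw [hY]; simp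
  have hab : a + b ∈ Y := by rw [hY]; simp
  have hac : a + c ∈ Y := by rw [hY]; simp
  have hbc : b + c ∈ Y := by rw [hY]; simp
  have habc : a + b + c ∈ Y := by rw [hY]; simp
  have hspan : span (ZMod 2) (Set.range ![a, b, c]) = span (ZMod 2) (Y : Set V) := by
    have ra : a ∈ span (ZMod 2) (Set.range ![a, b, c]) := subset_span ⟨0, rfl⟩
    have rb : b ∈ span (ZMod 2) (Set.range ![a, b, c]) := subset_span ⟨1, rfl⟩
    have rc : c ∈ span (ZMod 2) (Set.range ![a, b, c]) := subset_span ⟨2, rfl⟩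
    refine le_antisymm (span_le.2 ?_) (span_le.2 ?_)
    · rintro _ ⟨i, rfl⟩
      fin_cases i
      · exact subset_span ha
      · exact subset_span hb
      · exact subset_span hc
    · intro v hv
      rw [Finset.mem_coe, hY] at hv
      simp only [Finset.mem_insert, Finset.mem_singleton] at hv
      rcases hv with rfl | rfl | rfl | rfl | rfl | rfl | rfl
      · exact ra
      · exact rb
      · exact rc
      · exact add_mem ra rb
      · exact add_mem ra rc
      · exact add_mem rb rc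
      · exact add_mem (add_mem ra rb) rc
  obtain ⟨L, hL1, hL2, hL3, hL4⟩ := hYR.tu hli (fun i => by
    fin_cases i
    · exact ha
    · exact hb
    · exact hc) hspan
  have hco : ∀ v ∈ Y, ∀ y : Fin 3 → ZMod 2, v = ∑ i, y i • (![a, b, c] : Fin 3 → V) i →
      ∀ i, ((L v i : ℤ) : ZMod 2) = y i := by
    intro v hv y hy i
    have h1 : ∑ i, (((L v i : ℤ) : ZMod 2) - y i) • (![a, b, c] : Fin 3 → V) i = 0 := by
      simp only [sub_smul, Finset.sum_sub_distrib]
      rw [← hL2 v hv, ← hy, sub_self]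
    exact sub_eq_zero.1 ((Fintype.linearIndependent_iff.1 hli) _ h1 i)
  have e1 : a + b = ∑ i, (![1, 1, 0] : Fin 3 → ZMod 2) i • (![a, b, c] : Fin 3 → V) i := by
    simp [Fin.sum_univ_three]
  have e2 : a + c = ∑ i, (![1, 0, 1] : Fin 3 → ZMod 2) i • (![a, b, c] : Fin 3 → V) i := by
    simp [Fin.sum_univ_three]
  have e3 : b + c = ∑ i, (![0, 1, 1] : Fin 3 → ZMod 2) i • (![a, b, c] : Fin 3 → V) i := by
    simp [Fin.sum_univ_three]
  have e4 : a + b + c = ∑ i, (![1, 1, 1] : Fin 3 → ZMod 2) i • (![a, b, c] : Fin 3 → V) i := by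
    simp [Fin.sum_univ_three]
  have p := hco _ hab _ e1
  have q := hco _ hac _ e2
  have s := hco _ hbc _ e3
  have u := hco _ habc _ e4
  have p2 := Fano_even (hL3 _ hab 2) (p 2)
  have q1 := Fano_even (hL3 _ hac 1) (q 1)
  have s0 := Fano_even (hL3 _ hbc 0) (s 0)
  have d1 := hL4 ![a + b, a + c, b + c] (fun i => by
    fin_cases i
    · exact hab
    · exact hac
    · exact hbc)
  have d2 := hL4 ![a + b + c, a + b, c] (fun i => by
    fin_cases i
    · exact habc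
    · exact hab
    · exact hc)
  have d3 := hL4 ![a + b + c, b, a + c] (fun i => by
    fin_cases i
    · exact habc
    · exact hb
    · exact hac)
  have d4 := hL4 ![a, a + b + c, b + c] (fun i => by
    fin_cases i
    · exact ha
    · exact habc
    · exact hbc)
  have la : L a = Pi.single 0 1 := hL1 0
  have lb : L b = Pi.single 1 1 := hL1 1
  have lc : L c = Pi.single 2 1 := hL1 2
  have D1 : (Matrix.of fun i j => L ((![a + b, a + c, b + c] : Fin 3 → V) i) j).det =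
      - L (a + b) 0 * L (a + c) 2 * L (b + c) 1 - L (a + b) 1 * L (a + c) 0 * L (b + c) 2 := by
    rw [Matrix.det_fin_three]
    simp only [Matrix.of_apply, Matrix.cons_val_zero, Matrix.cons_val_one, Matrix.cons_val,
      p2, q1, s0]
    ring
  have D2 : (Matrix.of fun i j => L ((![a + b + c, a + b, c] : Fin 3 → V) i) j).det =
      L (a + b + c) 0 * L (a + b) 1 - L (a + b + c) 1 * L (a + b) 0 := by
    rw [Matrix.det_fin_three]
    simp only [Matrix.of_apply, Matrix.cons_val_zero, Matrix.cons_val_one, Matrix.cons_val,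
      p2, lc, Pi.single_apply]
    simp
  have D3 : (Matrix.of fun i j => L ((![a + b + c, b, a + c] : Fin 3 → V) i) j).det =
      L (a + b + c) 0 * L (a + c) 2 - L (a + b + c) 2 * L (a + c) 0 := by
    rw [Matrix.det_fin_three]
    simp only [Matrix.of_apply, Matrix.cons_val_zero, Matrix.cons_val_one, Matrix.cons_val,
      q1, lb, Pi.single_apply]
    simp
  have D4 : (Matrix.of fun i j => L ((![a, a + b + c, b + c] : Fin 3 → V) i) j).det =
      L (a + b + c) 1 * L (b + c) 2 - L (a + b + c) 2 * L (b + c) 1 := by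
    rw [Matrix.det_fin_three]
    simp only [Matrix.of_apply, Matrix.cons_val_zero, Matrix.cons_val_one, Matrix.cons_val,
      s0, la, Pi.single_apply]
    simp
  rw [D1] at d1
  rw [D2] at d2
  rw [D3] at d3
  rw [D4] at d4
  exact Fano_arith _ (Fano_odd (hL3 _ hab 0) (p 0)) _ (Fano_odd (hL3 _ hab 1) (p 1))
    _ (Fano_odd (hL3 _ hac 0) (q 0)) _ (Fano_odd (hL3 _ hac 2) (q 2))
    _ (Fano_odd (hL3 _ hbc 1) (s 1)) _ (Fano_odd (hL3 _ hbc 2) (s 2))
    _ (Fano_odd (hL3 _ habc 0) (u 0)) _ (Fano_odd (hL3 _ habc 1) (u 1))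
    _ (Fano_odd (hL3 _ habc 2) (u 2)) (Fano_tri d1) (Fano_tri d2) (Fano_tri d3) (Fano_tri d4)

/-- **No dual Fano configuration** -/
theorem Reg.no_fano_dual {X : Finset V} (h : Reg X) {a b c d : V}
    (hli : LinearIndependent (ZMod 2) ![a, b, c, d]) :
    ¬ ({a, b, c, d, a + b + d, a + c + d, b + c + d} : Finset V) ⊆ X := by
  intro hsub
  obtain ⟨Y, hY⟩ : ∃ Y : Finset V, Y = {a, b, c, d, a + b + d, a + c + d, b + c + d} := ⟨_, rfl⟩
  rw [← hY] at hsub
  have hYR : Reg Y := h.mono hsub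
  have ha : a ∈ Y := by rw [hY]; simp
  have hb : b ∈ Y := by rw [hY]; simp
  have hc : c ∈ Y := by rw [hY]; simp
  have hd : d ∈ Y := by rw [hY]; simp
  have hx : a + b + d ∈ Y := by rw [hY]; simp
  have hy : a + c + d ∈ Y := by rw [hY]; simp
  have hz : b + c + d ∈ Y := by rw [hY]; simp
  have hspan : span (ZMod 2) (Set.range ![a, b, c, d]) = span (ZMod 2) (Y : Set V) := by
    have ra : a ∈ span (ZMod 2) (Set.range ![a, b, c, d]) := subset_span ⟨0, rfl⟩
    have rb : b ∈ span (ZMod 2) (Set.range ![a, b, c, d]) := subset_span ⟨1, rfl⟩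
    have rc : c ∈ span (ZMod 2) (Set.range ![a, b, c, d]) := subset_span ⟨2, rfl⟩
    have rd : d ∈ span (ZMod 2) (Set.range ![a, b, c, d]) := subset_span ⟨3, rfl⟩
    refine le_antisymm (span_le.2 ?_) (span_le.2 ?_)
    · rintro _ ⟨i, rfl⟩
      fin_cases i
      · exact subset_span ha
      · exact subset_span hb
      · exact subset_span hc
      · exact subset_span hd
    · intro v hv
      rw [Finset.mem_coe, hY] at hv
      simp only [Finset.mem_insert, Finset.mem_singleton] at hv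
      rcases hv with rfl | rfl | rfl | rfl | rfl | rfl | rfl
      · exact ra
      · exact rb
      · exact rc
      · exact rd
      · exact add_mem (add_mem ra rb) rd
      · exact add_mem (add_mem ra rc) rd
      · exact add_mem (add_mem rb rc) rd
  obtain ⟨L, hL1, hL2, hL3, hL4⟩ := hYR.tu hli (fun i => by
    fin_cases i
    · exact ha
    · exact hb
    · exact hc
    · exact hd) hspan
  have hco : ∀ v ∈ Y, ∀ y : Fin 4 → ZMod 2, v = ∑ i, y i • (![a, b, c, d] : Fin 4 → V) i →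
      ∀ i, ((L v i : ℤ) : ZMod 2) = y i := by
    intro v hv y hy i
    have h1 : ∑ i, (((L v i : ℤ) : ZMod 2) - y i) • (![a, b, c, d] : Fin 4 → V) i = 0 := by
      simp only [sub_smul, Finset.sum_sub_distrib]
      rw [← hL2 v hv, ← hy, sub_self]
    exact sub_eq_zero.1 ((Fintype.linearIndependent_iff.1 hli) _ h1 i)
  have e1 : a + b + d = ∑ i, (![1, 1, 0, 1] : Fin 4 → ZMod 2) i •
      (![a, b, c, d] : Fin 4 → V) i := by
    simp [Fin.sum_univ_four]
  have e2 : a + c + d = ∑ i, (![1, 0, 1, 1] : Fin 4 → ZMod 2) i •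
      (![a, b, c, d] : Fin 4 → V) i := by
    simp [Fin.sum_univ_four]
  have e3 : b + c + d = ∑ i, (![0, 1, 1, 1] : Fin 4 → ZMod 2) i •
      (![a, b, c, d] : Fin 4 → V) i := by
    simp [Fin.sum_univ_four]
  have p := hco _ hx _ e1
  have q := hco _ hy _ e2
  have s := hco _ hz _ e3
  have p2 := Fano_even (hL3 _ hx 2) (p 2)
  have q1 := Fano_even (hL3 _ hy 1) (q 1)
  have s0 := Fano_even (hL3 _ hz 0) (s 0)
  have d1 := hL4 ![a + b + d, a + c + d, b, c] (fun i => by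
    fin_cases i
    · exact hx
    · exact hy
    · exact hb
    · exact hc)
  have d2 := hL4 ![a + b + d, b + c + d, a, c] (fun i => by
    fin_cases i
    · exact hx
    · exact hz
    · exact ha
    · exact hc)
  have d3 := hL4 ![a + c + d, b + c + d, a, b] (fun i => by
    fin_cases i
    · exact hy
    · exact hz
    · exact ha
    · exact hb)
  have d4 := hL4 ![a + b + d, a + c + d, b + c + d, d] (fun i => by
    fin_cases i
    · exact hx
    · exact hy
    · exact hz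
    · exact hd)
  have la : L a = Pi.single 0 1 := hL1 0
  have lb : L b = Pi.single 1 1 := hL1 1
  have lc : L c = Pi.single 2 1 := hL1 2
  have ld : L d = Pi.single 3 1 := hL1 3
  have key : ∀ M : Matrix (Fin 4) (Fin 4) ℤ, M.det =
      M 0 0 * (M 1 1 * (M 2 2 * M 3 3 - M 2 3 * M 3 2) - M 1 2 * (M 2 1 * M 3 3 - M 2 3 * M 3 1) +
        M 1 3 * (M 2 1 * M 3 2 - M 2 2 * M 3 1)) -
      M 0 1 * (M 1 0 * (M 2 2 * M 3 3 - M 2 3 * M 3 2) - M 1 2 * (M 2 0 * M 3 3 - M 2 3 * M 3 0) +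
        M 1 3 * (M 2 0 * M 3 2 - M 2 2 * M 3 0)) +
      M 0 2 * (M 1 0 * (M 2 1 * M 3 3 - M 2 3 * M 3 1) - M 1 1 * (M 2 0 * M 3 3 - M 2 3 * M 3 0) +
        M 1 3 * (M 2 0 * M 3 1 - M 2 1 * M 3 0)) -
      M 0 3 * (M 1 0 * (M 2 1 * M 3 2 - M 2 2 * M 3 1) - M 1 1 * (M 2 0 * M 3 2 - M 2 2 * M 3 0) +
        M 1 2 * (M 2 0 * M 3 1 - M 2 1 * M 3 0)) := by
    intro M
    rw [Matrix.det_succ_row_zero]
    simp [Fin.sum_univ_four, Matrix.det_fin_three, Fin.succAbove]
    ring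
  have D1 : (Matrix.of fun i j => L ((![a + b + d, a + c + d, b, c] : Fin 4 → V) i) j).det =
      L (a + b + d) 0 * L (a + c + d) 3 - L (a + b + d) 3 * L (a + c + d) 0 ∨
      (Matrix.of fun i j => L ((![a + b + d, a + c + d, b, c] : Fin 4 → V) i) j).det =
      - (L (a + b + d) 0 * L (a + c + d) 3 - L (a + b + d) 3 * L (a + c + d) 0) := by
    rw [key]
    simp only [Matrix.of_apply, Matrix.cons_val_zero, Matrix.cons_val_one, Matrix.cons_val,
      p2, q1, lb, lc, Pi.single_apply]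
    simp
  have D2 : (Matrix.of fun i j => L ((![a + b + d, b + c + d, a, c] : Fin 4 → V) i) j).det =
      L (a + b + d) 1 * L (b + c + d) 3 - L (a + b + d) 3 * L (b + c + d) 1 ∨
      (Matrix.of fun i j => L ((![a + b + d, b + c + d, a, c] : Fin 4 → V) i) j).det =
      - (L (a + b + d) 1 * L (b + c + d) 3 - L (a + b + d) 3 * L (b + c + d) 1) := by
    rw [key]
    simp only [Matrix.of_apply, Matrix.cons_val_zero, Matrix.cons_val_one, Matrix.cons_val,
      p2, s0, la, lc, Pi.single_apply]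
    simp
    right
    ring
  have D3 : (Matrix.of fun i j => L ((![a + c + d, b + c + d, a, b] : Fin 4 → V) i) j).det =
      L (a + c + d) 2 * L (b + c + d) 3 - L (a + c + d) 3 * L (b + c + d) 2 ∨
      (Matrix.of fun i j => L ((![a + c + d, b + c + d, a, b] : Fin 4 → V) i) j).det =
      - (L (a + c + d) 2 * L (b + c + d) 3 - L (a + c + d) 3 * L (b + c + d) 2) := by
    rw [key]
    simp only [Matrix.of_apply, Matrix.cons_val_zero, Matrix.cons_val_one, Matrix.cons_val,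
      q1, s0, la, lb, Pi.single_apply]
    simp
  have D4 : (Matrix.of fun i j =>
      L ((![a + b + d, a + c + d, b + c + d, d] : Fin 4 → V) i) j).det =
      - L (a + b + d) 0 * L (a + c + d) 2 * L (b + c + d) 1 -
        L (a + b + d) 1 * L (a + c + d) 0 * L (b + c + d) 2 := by
    rw [key]
    simp only [Matrix.of_apply, Matrix.cons_val_zero, Matrix.cons_val_one, Matrix.cons_val,
      p2, q1, s0, ld, Pi.single_apply]
    simp
    ring
  have hneg : ∀ D T : ℤ, (D = 0 ∨ D = 1 ∨ D = -1) → (D = T ∨ D = -T) →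
      T = 0 ∨ T = 1 ∨ T = -1 := by
    intro D T h1 h2
    omega
  rw [D4] at d4
  exact Fano_arith2 _ (Fano_odd (hL3 _ hx 0) (p 0)) _ (Fano_odd (hL3 _ hx 1) (p 1))
    _ (Fano_odd (hL3 _ hx 3) (p 3)) _ (Fano_odd (hL3 _ hy 0) (q 0))
    _ (Fano_odd (hL3 _ hy 2) (q 2)) _ (Fano_odd (hL3 _ hy 3) (q 3))
    _ (Fano_odd (hL3 _ hz 1) (s 1)) _ (Fano_odd (hL3 _ hz 2) (s 2))
    _ (Fano_odd (hL3 _ hz 3) (s 3)) (Fano_tri (hneg _ _ d1 D1)) (Fano_tri (hneg _ _ d2 D2))
    (Fano_tri (hneg _ _ d3 D3)) (Fano_tri d4)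

end

end Pool.Agent.TRL
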