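import Pool.Agent.TRL.Minor

/-!
# TRL, module Quot: quotients of regular sets by the span of some of their vectors (helper38)
-/

set_option autoImplicit false

open Submodule Module

namespace Pool.Agent.TRL

section

variable {V : Type} [AddCommGroup V] [Module (ZMod 2) V]

private theorem Quot_sum {E : Type} [Fintype E] [DecidableEq E] (w : E → V) {r : ℕ}
    (t : Fin r → E) (y : E → ZMod 2) (a : Fin r → ZMod 2) :
    ∑ e, (y + ∑ i, a i • (Pi.single (t i) 1 : E → ZMod 2)) e • w e =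
      ∑ e, y e • w e + ∑ i, a i • w (t i) := by
  simp only [Pi.add_apply, add_smul, Finset.sum_add_distrib]
  congr 1
  simp only [Finset.sum_apply, Pi.smul_apply, smul_eq_mul, Finset.sum_smul]
  rw [Finset.sum_comm]
  refine Finset.sum_congr rfl fun i _ => ?_
  rw [Finset.sum_eq_single (t i)]
  · rw [Pi.single_eq_same, mul_one]
  · intro e _ he
    rw [Pi.single_eq_of_ne he, mul_zero, zero_smul]
  · intro h
    exact absurd (Finset.mem_univ _) h

private theorem Quot_cast {E : Type} [DecidableEq E] {r : ℕ} (t : Fin r → E) (a : Fin r → ℤ)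
    (e : E) : (((∑ i, a i • (Pi.single (t i) 1 : E → ℤ)) e : ℤ) : ZMod 2) =
      (∑ i, ((a i : ℤ) : ZMod 2) • (Pi.single (t i) 1 : E → ZMod 2)) e := by
  rw [Finset.sum_apply, Finset.sum_apply, Int.cast_sum]
  refine Finset.sum_congr rfl fun i _ => ?_
  rw [Pi.smul_apply, Pi.smul_apply, smul_eq_mul, smul_eq_mul, Int.cast_mul]
  by_cases hie : e = t i
  · rw [hie, Pi.single_eq_same, Pi.single_eq_same, Int.cast_one]
  · rw [Pi.single_eq_of_ne hie, Pi.single_eq_of_ne hie, Int.cast_zero]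

/-- contraction of independent edges -/
theorem Lifts.quot {E : Type} [Fintype E] [DecidableEq E] {w : E → V} {C : Submodule ℤ (E → ℤ)}
    (hL : Lifts w C) {r : ℕ} {t : Fin r → E} (ht : LinearIndependent (ZMod 2) fun i => w (t i))
    {W : Submodule (ZMod 2) V} (hW : W = span (ZMod 2) (Set.range fun i => w (t i))) :
    Lifts (fun e => W.mkQ (w e))
      (C ⊔ span ℤ (Set.range fun i => (Pi.single (t i) 1 : E → ℤ))) := by
  classical
  have hinj : Function.Injective t := fun i j h => ht.injective (by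
    show w (t i) = w (t j)
    rw [h])
  obtain ⟨C', hC'⟩ : ∃ C' : Submodule ℤ (E → ℤ),
      C' = C ⊔ span ℤ (Set.range fun i => (Pi.single (t i) 1 : E → ℤ)) := ⟨_, rfl⟩
  rw [← hC']
  have hCC : C ≤ C' := by
    rw [hC']
    exact le_sup_left
  have hsC : ∀ i, (Pi.single (t i) 1 : E → ℤ) ∈ C' := by
    intro i
    rw [hC']
    exact mem_sup_right (subset_span ⟨i, rfl⟩)
  have hdec : ∀ ε ∈ C', ∃ c ∈ C, ∃ a : Fin r → ℤ,
      ε = c + ∑ i, a i • (Pi.single (t i) 1 : E → ℤ) := by
    intro ε hε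
    rw [hC', mem_sup] at hε
    obtain ⟨c, hc, d, hd, rfl⟩ := hε
    obtain ⟨a, rfl⟩ := (mem_span_range_iff_exists_fun ℤ).1 hd
    exact ⟨c, hc, a, rfl⟩
  have hsum : ∀ y : E → ZMod 2, ∑ e, y e • W.mkQ (w e) = W.mkQ (∑ e, y e • w e) := by
    intro y
    rw [map_sum]
    refine Finset.sum_congr rfl fun e _ => ?_
    rw [map_smul]
  have hred : ∀ (c : E → ℤ) (a : Fin r → ℤ),
      ∑ e, (((c + ∑ i, a i • (Pi.single (t i) 1 : E → ℤ)) e : ℤ) : ZMod 2) • w e =
      ∑ e, ((c e : ℤ) : ZMod 2) • w e + ∑ i, ((a i : ℤ) : ZMod 2) • w (t i) := by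
    intro c a
    rw [← Quot_sum]
    refine Finset.sum_congr rfl fun e _ => congrArg (fun t : ZMod 2 => t • w e) ?_
    rw [Pi.add_apply, Pi.add_apply, Int.cast_add, Quot_cast]
  refine ⟨fun y hy => ?_, fun ε hε => ?_, fun ε hε => ?_⟩
  · rw [hsum, Submodule.mkQ_apply, Submodule.Quotient.mk_eq_zero, hW] at hy
    obtain ⟨a, ha⟩ := (mem_span_range_iff_exists_fun (ZMod 2)).1 hy
    have h1 : ∑ e, (y + ∑ i, a i • (Pi.single (t i) 1 : E → ZMod 2)) e • w e = 0 := by
      rw [Quot_sum, ha]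
      exact ZModModule.add_self _
    obtain ⟨ε, hεC, hε, hε1⟩ := hL.lift _ h1
    have h2 : ∀ e, (∀ i, t i ≠ e) → ((ε e : ℤ) : ZMod 2) = y e := by
      intro e he
      rw [hε, Pi.add_apply, Finset.sum_apply, Finset.sum_eq_zero, add_zero]
      intro i _
      rw [Pi.smul_apply, Pi.single_eq_of_ne (Ne.symm (he i)), smul_zero]
    have h3 : ∀ i, ∃ b : ℤ, ((ε (t i) + b : ℤ) : ZMod 2) = y (t i) ∧ |ε (t i) + b| ≤ 1 := by
      intro i
      by_cases h4 : y (t i) = 0
      · exact ⟨- ε (t i), by rw [add_neg_cancel, h4, Int.cast_zero], by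
          rw [add_neg_cancel]; simp⟩
      · have h5 : ∀ t : ZMod 2, t ≠ 0 → t = 1 := by decide
        exact ⟨1 - ε (t i), by rw [add_sub_cancel, h5 _ h4, Int.cast_one], by
          rw [add_sub_cancel]; simp⟩
    choose b hb1 hb2 using h3
    have hval : ∀ i, (∑ j, b j • (Pi.single (t j) 1 : E → ℤ)) (t i) = b i := by
      intro i
      rw [Finset.sum_apply, Finset.sum_eq_single i]
      · rw [Pi.smul_apply, Pi.single_eq_same, smul_eq_mul, mul_one]
      · intro j _ hj
        rw [Pi.smul_apply, Pi.single_eq_of_ne (fun h => hj (hinj h.symm)), smul_zero]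
      · intro h
        exact absurd (Finset.mem_univ _) h
    have hval0 : ∀ e, (∀ i, t i ≠ e) → (∑ j, b j • (Pi.single (t j) 1 : E → ℤ)) e = 0 := by
      intro e he
      rw [Finset.sum_apply]
      refine Finset.sum_eq_zero fun i _ => ?_
      rw [Pi.smul_apply, Pi.single_eq_of_ne (Ne.symm (he i)), smul_zero]
    refine ⟨ε + ∑ j, b j • (Pi.single (t j) 1 : E → ℤ),
      C'.add_mem (hCC hεC) (C'.sum_mem fun j _ => C'.smul_mem _ (hsC j)), fun e => ?_, fun e => ?_⟩
    · rw [Pi.add_apply]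
      by_cases he : ∃ i, t i = e
      · obtain ⟨i, rfl⟩ := he
        rw [hval]
        exact hb1 i
      · push Not at he
        rw [hval0 e he, add_zero]
        exact h2 e he
    · rw [Pi.add_apply]
      by_cases he : ∃ i, t i = e
      · obtain ⟨i, rfl⟩ := he
        rw [hval]
        exact hb2 i
      · push Not at he
        rw [hval0 e he, add_zero]
        exact hε1 e
  · rw [hsum (fun e => ((ε e : ℤ) : ZMod 2))]
    obtain ⟨c, hc, a, rfl⟩ := hdec ε hε
    rw [hred, hL.red c hc, zero_add, Submodule.mkQ_apply, Submodule.Quotient.mk_eq_zero, hW]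
    exact sum_mem fun i _ => smul_mem _ _ (subset_span ⟨i, rfl⟩)
  · obtain ⟨c, hc, a, hca⟩ := hdec _ hε
    have h1 := hred c a
    rw [← hca, hL.red c hc, zero_add] at h1
    have h2 : ∑ e, ((((2 : ℤ) • ε) e : ℤ) : ZMod 2) • w e = 0 := by
      refine Finset.sum_eq_zero fun e _ => ?_
      rw [Pi.smul_apply, smul_eq_mul, Int.cast_mul]
      have h3 : ((2 : ℤ) : ZMod 2) = 0 := by decide
      rw [h3, zero_mul, zero_smul]
    rw [h2] at h1
    have h3 := fun i => (ZMod.intCast_zmod_eq_zero_iff_dvd (a i) 2).1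
      ((Fintype.linearIndependent_iff.1 ht) _ h1.symm i)
    choose b hb using h3
    have h4 : ε - ∑ i, b i • (Pi.single (t i) 1 : E → ℤ) ∈ C := by
      apply hL.sat
      have h5 : (2 : ℤ) • (ε - ∑ i, b i • (Pi.single (t i) 1 : E → ℤ)) = c := by
        rw [smul_sub, hca, Finset.smul_sum]
        have h6 : ∑ i, (2 : ℤ) • b i • (Pi.single (t i) 1 : E → ℤ) =
            ∑ i, a i • (Pi.single (t i) 1 : E → ℤ) := by
          refine Finset.sum_congr rfl fun i _ => ?_
          rw [smul_smul]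
          refine congrArg (fun k : ℤ => k • (Pi.single (t i) 1 : E → ℤ)) ?_
          have := hb i
          push_cast at this
          exact this.symm
        rw [h6]
        abel
      rw [h5]
      exact hc
    have h5 : ε = (ε - ∑ i, b i • (Pi.single (t i) 1 : E → ℤ)) +
        ∑ i, b i • (Pi.single (t i) 1 : E → ℤ) := by
      abel
    rw [h5]
    exact C'.add_mem (hCC h4) (C'.sum_mem fun i _ => C'.smul_mem _ (hsC i))

/-- **quotients** by the span of some vectors of the set -/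
theorem Reg.quotSpan {X F : Finset V} (h : Reg X) (hF : F ⊆ X) {W : Submodule (ZMod 2) V}
    (hW : W = span (ZMod 2) (F : Set V)) [DecidableEq (V ⧸ W)] : Reg (X.image W.mkQ) := by
  classical
  obtain ⟨E, _, w, C, hL, hX⟩ := h
  obtain ⟨b, hbF, hbs, hbi⟩ := exists_linearIndependent (ZMod 2) (F : Set V)
  have hbf : b.Finite := F.finite_toSet.subset hbF
  have := hbf.fintype
  obtain ⟨r, hr⟩ : ∃ r, r = Fintype.card b := ⟨_, rfl⟩
  obtain ⟨f⟩ : Nonempty (Fin r ≃ b) := ⟨(Fintype.equivFinOfCardEq hr.symm).symm⟩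
  have ht0 : ∀ i, ∃ e, w e = (f i : V) := fun i => hX _ (hF (hbF (f i).2))
  choose t ht using ht0
  have hti : LinearIndependent (ZMod 2) fun i => w (t i) := by
    have h1 : (fun i => w (t i)) = (fun x : b => (x : V)) ∘ f := funext fun i => ht i
    rw [h1]
    exact hbi.comp _ f.injective
  have hrange : Set.range (fun i => w (t i)) = b := by
    ext v
    constructor
    · rintro ⟨i, rfl⟩
      show w (t i) ∈ b
      rw [ht]
      exact (f i).2
    · intro hv
      refine ⟨f.symm ⟨v, hv⟩, ?_⟩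
      beta_reduce
      rw [ht, Equiv.apply_symm_apply]
  refine ⟨E, _, fun e => W.mkQ (w e), _, hL.quot hti (by rw [hrange, hbs, hW]), fun v hv => ?_⟩
  obtain ⟨u, hu, rfl⟩ := Finset.mem_image.1 hv
  obtain ⟨e, rfl⟩ := hX u hu
  exact ⟨e, rfl⟩

end

end Pool.Agent.TRL
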