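import Mathlib

/-!
# TRL: unimodular integral lifts of sets of vectors over `ZMod 2` (helper38)
-/

set_option autoImplicit false

open Submodule Module

namespace Pool.Agent.TRL

/-- The set `X` of vectors over `ZMod 2` has a unimodular integral lift: there are integral vectors
`L v` of length `r = rank X`, whose reductions are the images of the vectors `v` under a linear map
which is injective on the span of `X`, such that all determinants of `r` of them are `0`, `1` or `-1`. -/
def Regular {V : Type} [AddCommGroup V] [Module (ZMod 2) V] (X : Finset V) : Prop :=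
  ∃ (r : ℕ) (φ : V →ₗ[ZMod 2] (Fin r → ZMod 2)) (L : V → Fin r → ℤ),
    r = finrank (ZMod 2) (span (ZMod 2) (X : Set V)) ∧
    (∀ v ∈ X, ∀ i, ((L v i : ℤ) : ZMod 2) = φ v i) ∧
    (∀ v ∈ span (ZMod 2) (X : Set V), φ v = 0 → v = 0) ∧
    ∀ x : Fin r → V, (∀ i, x i ∈ X) →
      (Matrix.of fun i j => L (x i) j).det = 0 ∨ (Matrix.of fun i j => L (x i) j).det = 1 ∨
      (Matrix.of fun i j => L (x i) j).det = -1

/-- Integral relations `C` between the edges which lift the relations mod 2 between the vectors `w e`. -/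
structure Lifts {E V : Type} [Fintype E] [AddCommGroup V] [Module (ZMod 2) V] (w : E → V)
    (C : Submodule ℤ (E → ℤ)) : Prop where
  lift : ∀ y : E → ZMod 2, ∑ e, y e • w e = 0 → ∃ ε ∈ C, (∀ e, ((ε e : ℤ) : ZMod 2) = y e) ∧
    ∀ e, |ε e| ≤ 1
  red : ∀ ε ∈ C, ∑ e, ((ε e : ℤ) : ZMod 2) • w e = 0
  sat : ∀ ε : E → ℤ, (2 : ℤ) • ε ∈ C → ε ∈ C

end Pool.Agent.TRL
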