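import Pool.Agent.TRL.Lift
import Pool.Agent.FHP.Graph

/-!
# TRL, module Gauss: the rows of the cut matrix are regular (helper38)
-/

set_option autoImplicit false

open Submodule Module

namespace Pool.Agent.TRL

open Pool.Agent.SPT Pool.Agent.EQT Pool.Agent.FHP Pool.Agent.Helper16.Knotoid

variable {n : ℕ}

/-- the differences of integral functions on the components of a state -/
def Cuts (D : GaussDiagram n) (σ : Fin n → Bool) : Submodule ℤ (Fin n → ℤ) where
  carrier := {ε | ∃ φ : Fin (2 * n + 1) → ℤ, (∀ v w, D.Join σ v w → φ v = φ w) ∧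
    ∀ c, ε c = φ (D.overPass c).castSucc - φ (D.overPass c).succ}
  add_mem' := by
    rintro ε ε' ⟨φ, h1, h2⟩ ⟨φ', h1', h2'⟩
    refine ⟨φ + φ', fun v w h => ?_, fun c => ?_⟩
    · rw [Pi.add_apply, Pi.add_apply, h1 v w h, h1' v w h]
    · rw [Pi.add_apply, Pi.add_apply, Pi.add_apply, h2, h2']
      ring
  zero_mem' := ⟨0, fun v w _ => rfl, fun c => by simp⟩
  smul_mem' := by
    rintro a ε ⟨φ, h1, h2⟩
    refine ⟨a • φ, fun v w h => ?_, fun c => ?_⟩
    · rw [Pi.smul_apply, Pi.smul_apply, h1 v w h]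
    · rw [Pi.smul_apply, Pi.smul_apply, Pi.smul_apply, h2, smul_sub]

/-- the integral lift of an element of `ZMod 2` -/
private def Gauss_up (a : ZMod 2) : ℤ := if a = 0 then 0 else 1

private theorem Gauss_cast (a b : ZMod 2) :
    ((Gauss_up a - Gauss_up b : ℤ) : ZMod 2) = a + b := by
  revert a b
  unfold Gauss_up
  decide

private theorem Gauss_abs (a b : ZMod 2) : |Gauss_up a - Gauss_up b| ≤ 1 := by
  revert a b
  unfold Gauss_up
  decide

/-- the relations between the rows lift -/
theorem Gauss_lifts (D : GaussDiagram n) (σ : Fin n → Bool) :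
    Lifts (fun c => D.gmat σ c) (Cuts D σ) := by
  have hrow : ∀ y : Fin n → ZMod 2, ∑ c, y c • D.gmat σ c = (D.gmat σ).mulVec y := by
    intro y
    funext i
    rw [Finset.sum_apply]
    unfold Matrix.mulVec dotProduct
    refine Finset.sum_congr rfl fun c _ => ?_
    rw [Pi.smul_apply, smul_eq_mul, mul_comm]
    exact congrArg (fun t => t * y c) (D.gmat_symm σ c i)
  refine ⟨fun y hy => ?_, ?_, ?_⟩
  · rw [hrow] at hy
    obtain ⟨φ, hφ, h1⟩ := Graph_ker D σ y hy
    rw [mem_compat] at hφ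
    refine ⟨fun c => Gauss_up (φ (D.overPass c).castSucc) - Gauss_up (φ (D.overPass c).succ),
      ⟨fun v => Gauss_up (φ v), fun v w h => by
        show Gauss_up (φ v) = Gauss_up (φ w)
        rw [hφ v w h], fun c => rfl⟩, fun c => ?_, fun c => Gauss_abs _ _⟩
    rw [Gauss_cast, h1]
  · rintro ε ⟨φ, h1, h2⟩
    rw [hrow]
    have h3 : (fun v => ((φ v : ℤ) : ZMod 2)) ∈ compat (D.Join σ) := by
      rw [mem_compat]
      intro v w h
      show ((φ v : ℤ) : ZMod 2) = ((φ w : ℤ) : ZMod 2)
      rw [h1 v w h]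
    have h4 : (D.gmat σ).mulVec (fun c => ((φ (D.overPass c).castSucc : ℤ) : ZMod 2) +
        ((φ (D.overPass c).succ : ℤ) : ZMod 2)) = 0 := D.ker_of_compat σ h3
    rw [← h4]
    refine congrArg _ (funext fun c => ?_)
    rw [h2, Int.cast_sub]
    exact CharTwo.sub_eq_add _ _
  · rintro ε ⟨φ, h1, h2⟩
    refine ⟨fun v => φ v / 2, fun v w h => ?_, fun c => ?_⟩
    · show φ v / 2 = φ w / 2
      rw [h1 v w h]
    · have h3 := h2 c
      rw [Pi.smul_apply, smul_eq_mul] at h3
      show ε c = φ (D.overPass c).castSucc / 2 - φ (D.overPass c).succ / 2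
      omega

/-- **knotoid diagrams**: the rows of the cut matrix have a unimodular integral lift -/
theorem knotoid_regular (D : GaussDiagram n) (σ : Fin n → Bool)
    (X : Finset (Fin n → ZMod 2)) (hX : X ⊆ rows (D.Cut σ)) : Regular X := by
  refine regular_of_lifts (Gauss_lifts D σ) X fun v hv => ?_
  have h1 := hX hv
  unfold rows at h1
  obtain ⟨c, -, rfl⟩ := Finset.mem_image.1 h1
  exact ⟨c, (row_eq D σ c).symm⟩

/-- **knot diagrams** -/
theorem knot_regular (g : GaussJones.Code n) (e σ : Fin n → Bool)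
    (X : Finset (Fin n → ZMod 2)) (hX : X ⊆ rows (GaussJones.Cut g e σ)) : Regular X := by
  have h0 : GaussJones.Cut g e σ = (UNI.cutOpen g e).Cut σ := by
    funext i j
    exact propext (UNI.cut_closed g e _ i j)
  rw [h0] at hX
  exact knotoid_regular (UNI.cutOpen g e) σ X hX

end Pool.Agent.TRL
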