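import Pool.Agent.TRL.Defs

/-!
# TRL, module Lift: sets of vectors with lifted relations are regular (helper38)
-/

set_option autoImplicit false

open Submodule Module

namespace Pool.Agent.TRL

section

variable {E V : Type} [Fintype E] [DecidableEq E] [AddCommGroup V] [Module (ZMod 2) V] {w : E → V}
  {C : Submodule ℤ (E → ℤ)}

/-- a sum over the edges of a combination of edges -/
private theorem Lift_sum {r : ℕ} (c : Fin r → E) (y : Fin r → ZMod 2) :
    ∑ e, (∑ i, y i • (Pi.single (c i) 1 : E → ZMod 2)) e • w e = ∑ i, y i • w (c i) := by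
  simp only [Finset.sum_apply, Pi.smul_apply, smul_eq_mul, Finset.sum_smul]
  rw [Finset.sum_comm]
  refine Finset.sum_congr rfl fun i _ => ?_
  rw [Finset.sum_eq_single (c i)]
  · rw [Pi.single_eq_same, mul_one]
  · intro e _ he
    rw [Pi.single_eq_of_ne he, mul_zero, zero_smul]
  · intro h
    exact absurd (Finset.mem_univ _) h

/-- a small integer which is even is zero -/
private theorem Lift_small {a : ℤ} (h : |a| ≤ 1) (h2 : ((a : ℤ) : ZMod 2) = 0) : a = 0 := by
  have h3 : (2 : ℤ) ∣ a := (ZMod.intCast_zmod_eq_zero_iff_dvd a 2).1 h2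
  obtain ⟨b, rfl⟩ := h3
  rw [abs_le] at h
  omega

private theorem Lift_odd {a : ℤ} (h : |a| ≤ 1) (h2 : ((a : ℤ) : ZMod 2) = 1) : a = 1 ∨ a = -1 := by
  rw [abs_le] at h
  have h3 : a ≠ 0 := by
    rintro rfl
    rw [Int.cast_zero] at h2
    exact zero_ne_one h2
  omega

/-- an integral relation expressing one edge by others -/
theorem Lift_rel (hL : Lifts w C) {r : ℕ} {c : Fin r → E}
    (hc : LinearIndependent (ZMod 2) fun i => w (c i)) (e₀ : E) (y : Fin r → ZMod 2)
    (hy : w e₀ = ∑ i, y i • w (c i)) : ∃ m : Fin r → ℤ, (∀ i, ((m i : ℤ) : ZMod 2) = y i) ∧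
      (Pi.single e₀ 1 : E → ℤ) - ∑ i, m i • (Pi.single (c i) 1 : E → ℤ) ∈ C ∧
      ∀ i, |m i| ≤ 1 := by
  have hinj : Function.Injective c := fun i j h => hc.injective (by
    show w (c i) = w (c j)
    rw [h])
  by_cases he : ∃ i, c i = e₀
  · obtain ⟨k, hk⟩ := he
    refine ⟨Pi.single k 1, fun i => ?_, ?_, fun i => ?_⟩
    · have h1 : ∑ i, (y i - (Pi.single k 1 : Fin r → ZMod 2) i) • w (c i) = 0 := by
        simp only [sub_smul, Finset.sum_sub_distrib]
        rw [← hy, sub_eq_zero, ← hk, Finset.sum_eq_single k]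
        · rw [Pi.single_eq_same, one_smul]
        · intro i _ hi
          rw [Pi.single_eq_of_ne hi, zero_smul]
        · intro h
          exact absurd (Finset.mem_univ _) h
      have h2 := (Fintype.linearIndependent_iff.1 hc) _ h1 i
      rw [sub_eq_zero] at h2
      rw [h2]
      by_cases hik : i = k
      · rw [hik, Pi.single_eq_same, Pi.single_eq_same, Int.cast_one]
      · rw [Pi.single_eq_of_ne hik, Pi.single_eq_of_ne hik, Int.cast_zero]
    · have h1 : ∑ i, (Pi.single k 1 : Fin r → ℤ) i • (Pi.single (c i) 1 : E → ℤ) =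
          Pi.single e₀ 1 := by
        rw [Finset.sum_eq_single k]
        · rw [Pi.single_eq_same, one_smul, hk]
        · intro i _ hi
          rw [Pi.single_eq_of_ne hi, zero_smul]
        · intro h
          exact absurd (Finset.mem_univ _) h
      rw [h1, sub_self]
      exact C.zero_mem
    · by_cases hik : i = k
      · rw [hik, Pi.single_eq_same, abs_one]
      · rw [Pi.single_eq_of_ne hik, abs_zero]
        exact zero_le_one
  · push Not at he
    obtain ⟨Y, hY⟩ : ∃ Y : E → ZMod 2, Y = Pi.single e₀ 1 +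
      ∑ i, y i • (Pi.single (c i) 1 : E → ZMod 2) := ⟨_, rfl⟩
    have hYe : Y e₀ = 1 := by
      rw [hY, Pi.add_apply, Pi.single_eq_same, Finset.sum_apply]
      rw [Finset.sum_eq_zero, add_zero]
      intro i _
      rw [Pi.smul_apply, Pi.single_eq_of_ne (Ne.symm (he i)), smul_zero]
    have hYc : ∀ i, Y (c i) = y i := by
      intro i
      rw [hY, Pi.add_apply, Pi.single_eq_of_ne (he i), zero_add, Finset.sum_apply,
        Finset.sum_eq_single i]
      · rw [Pi.smul_apply, Pi.single_eq_same, smul_eq_mul, mul_one]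
      · intro j _ hj
        rw [Pi.smul_apply, Pi.single_eq_of_ne (fun h => hj (hinj h.symm)), smul_zero]
      · intro h
        exact absurd (Finset.mem_univ _) h
    have hY0 : ∀ e, e ≠ e₀ → (∀ i, c i ≠ e) → Y e = 0 := by
      intro e h1 h2
      rw [hY, Pi.add_apply, Pi.single_eq_of_ne h1, zero_add, Finset.sum_apply]
      refine Finset.sum_eq_zero fun i _ => ?_
      rw [Pi.smul_apply, Pi.single_eq_of_ne (Ne.symm (h2 i)), smul_zero]
    have hsum : ∑ e, Y e • w e = 0 := by
      rw [hY]
      simp only [Pi.add_apply, add_smul, Finset.sum_add_distrib]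
      rw [Lift_sum, ← hy, Finset.sum_eq_single e₀]
      · rw [Pi.single_eq_same, one_smul]
        exact ZModModule.add_self _
      · intro e _ he
        rw [Pi.single_eq_of_ne he, zero_smul]
      · intro h
        exact absurd (Finset.mem_univ _) h
    obtain ⟨ε, hεC, hε, hε1⟩ := hL.lift Y hsum
    have hdec : ε = ε e₀ • (Pi.single e₀ 1 : E → ℤ) + ∑ i, ε (c i) • (Pi.single (c i) 1 : E → ℤ) := by
      funext e
      rw [Pi.add_apply, Pi.smul_apply, Finset.sum_apply]
      by_cases h1 : e = e₀
      · rw [h1, Pi.single_eq_same, smul_eq_mul, mul_one, Finset.sum_eq_zero, add_zero]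
        intro i _
        rw [Pi.smul_apply, Pi.single_eq_of_ne (Ne.symm (he i)), smul_zero]
      · rw [Pi.single_eq_of_ne h1, smul_zero, zero_add]
        by_cases h2 : ∃ i, c i = e
        · obtain ⟨k, rfl⟩ := h2
          rw [Finset.sum_eq_single k]
          · rw [Pi.smul_apply, Pi.single_eq_same, smul_eq_mul, mul_one]
          · intro j _ hj
            rw [Pi.smul_apply, Pi.single_eq_of_ne (fun h => hj (hinj h.symm)), smul_zero]
          · intro h
            exact absurd (Finset.mem_univ _) h
        · push Not at h2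
          rw [Lift_small (hε1 e) (by rw [hε e]; exact hY0 e h1 h2), Finset.sum_eq_zero]
          intro i _
          rw [Pi.smul_apply, Pi.single_eq_of_ne (Ne.symm (h2 i)), smul_zero]
    rcases Lift_odd (hε1 e₀) (by rw [hε, hYe]) with h1 | h1
    · refine ⟨fun i => - ε (c i), fun i => ?_, ?_, fun i => by rw [abs_neg]; exact hε1 _⟩
      · rw [Int.cast_neg, hε, hYc]
        exact ZMod.neg_eq_self_mod_two _
      · have h2 : (Pi.single e₀ 1 : E → ℤ) - ∑ i, (- ε (c i)) • (Pi.single (c i) 1 : E → ℤ) = ε := by
          conv_rhs => rw [hdec, h1]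
          simp only [neg_smul, Finset.sum_neg_distrib, one_smul, sub_neg_eq_add]
        rw [h2]
        exact hεC
    · refine ⟨fun i => ε (c i), fun i => ?_, ?_, fun i => hε1 _⟩
      · rw [hε, hYc]
      · have h2 : (Pi.single e₀ 1 : E → ℤ) - ∑ i, ε (c i) • (Pi.single (c i) 1 : E → ℤ) = - ε := by
          conv_rhs => rw [hdec, h1]
          simp only [neg_smul, one_smul, neg_add_rev, neg_neg]
          abel
        rw [h2]
        exact C.neg_mem hεC

/-- independent edges have no integral relation -/
theorem Lift_unique (hL : Lifts w C) {r : ℕ} {c : Fin r → E}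
    (hc : LinearIndependent (ZMod 2) fun i => w (c i)) (m : Fin r → ℤ)
    (hm : ∑ i, m i • (Pi.single (c i) 1 : E → ℤ) ∈ C) : m = 0 := by
  obtain ⟨N, hN⟩ : ∃ N : ℕ, ∑ i, (m i).natAbs ≤ N := ⟨_, le_refl _⟩
  induction N generalizing m with
  | zero =>
    funext i
    have h1 := (Finset.sum_eq_zero_iff_of_nonneg (fun i _ => Nat.zero_le _)).1
      (Nat.le_zero.1 hN) i (Finset.mem_univ i)
    exact Int.natAbs_eq_zero.1 h1
  | succ N ih =>
    have h1 := hL.red _ hm
    have h2 : ∑ i, ((m i : ℤ) : ZMod 2) • w (c i) = 0 := by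
      rw [← Lift_sum (w := w) c, ← h1]
      refine Finset.sum_congr rfl fun e _ => ?_
      refine congrArg (fun t : ZMod 2 => t • w e) ?_
      rw [Finset.sum_apply, Finset.sum_apply, Int.cast_sum]
      refine Finset.sum_congr rfl fun i _ => ?_
      rw [Pi.smul_apply, Pi.smul_apply, smul_eq_mul, smul_eq_mul, Int.cast_mul]
      by_cases hie : e = c i
      · rw [hie, Pi.single_eq_same, Pi.single_eq_same, Int.cast_one]
      · rw [Pi.single_eq_of_ne hie, Pi.single_eq_of_ne hie, Int.cast_zero]
    have h3 := (Fintype.linearIndependent_iff.1 hc) _ h2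
    have h4 : ∀ i, ∃ k : ℤ, m i = 2 * k := fun i =>
      (ZMod.intCast_zmod_eq_zero_iff_dvd (m i) 2).1 (h3 i)
    choose k hk using h4
    have h5 : ∑ i, k i • (Pi.single (c i) 1 : E → ℤ) ∈ C := by
      apply hL.sat
      rw [Finset.smul_sum]
      have h6 : ∑ i, (2 : ℤ) • k i • (Pi.single (c i) 1 : E → ℤ) =
          ∑ i, m i • (Pi.single (c i) 1 : E → ℤ) := by
        refine Finset.sum_congr rfl fun i _ => ?_
        rw [smul_smul, ← hk i]
      rw [h6]
      exact hm
    by_cases hm0 : m = 0
    · exact hm0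
    · obtain ⟨j, hj⟩ : ∃ j, m j ≠ 0 := by
        by_contra h
        push Not at h
        exact hm0 (funext h)
      have h6 : ∑ i, (k i).natAbs < ∑ i, (m i).natAbs := by
        refine Finset.sum_lt_sum (fun i _ => ?_) ⟨j, Finset.mem_univ j, ?_⟩
        · have := hk i
          omega
        · have := hk j
          omega
      have h7 := ih k h5 (by omega)
      exfalso
      apply hj
      rw [hk j, h7, Pi.zero_apply, mul_zero]

/-- the determinants -/
theorem Lift_det (hL : Lifts w C) {r : ℕ} {t : Fin r → E}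
    (ht : LinearIndependent (ZMod 2) fun i => w (t i)) (c : Fin r → E) (N : Fin r → Fin r → ℤ)
    (hspan : ∀ i, w (c i) ∈ span (ZMod 2) (Set.range fun i => w (t i)))
    (hN : ∀ i, (Pi.single (c i) 1 : E → ℤ) - ∑ j, N i j • (Pi.single (t j) 1 : E → ℤ) ∈ C) :
    (Matrix.of N).det = 0 ∨ (Matrix.of N).det = 1 ∨ (Matrix.of N).det = -1 := by
  by_cases hc : LinearIndependent (ZMod 2) fun i => w (c i)
  · right
    have : FiniteDimensional (ZMod 2) (span (ZMod 2) (Set.range fun i => w (t i))) :=
      FiniteDimensional.span_of_finite _ (Set.finite_range _)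
    have hsp : span (ZMod 2) (Set.range fun i => w (c i)) =
        span (ZMod 2) (Set.range fun i => w (t i)) := by
      refine Submodule.eq_of_le_of_finrank_eq (span_le.2 ?_) ?_
      · rintro _ ⟨i, rfl⟩
        exact hspan i
      · rw [finrank_span_eq_card hc, finrank_span_eq_card ht]
    have h1 : ∀ j, ∃ m : Fin r → ℤ,
        (Pi.single (t j) 1 : E → ℤ) - ∑ i, m i • (Pi.single (c i) 1 : E → ℤ) ∈ C := by
      intro j
      have h2 : w (t j) ∈ span (ZMod 2) (Set.range fun i => w (c i)) := by
        rw [hsp]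
        exact subset_span ⟨j, rfl⟩
      obtain ⟨y, hy⟩ := (mem_span_range_iff_exists_fun (ZMod 2)).1 h2
      obtain ⟨m, -, hm, -⟩ := Lift_rel hL hc (t j) y hy.symm
      exact ⟨m, hm⟩
    choose m hm using h1
    have h2 : Matrix.of m * Matrix.of N = 1 := by
      ext j k
      have h3 : (fun k => (Matrix.of m * Matrix.of N) j k - (1 : Matrix (Fin r) (Fin r) ℤ) j k) =
          0 := by
        refine Lift_unique hL ht _ ?_
        have h4 : ∑ k, ((Matrix.of m * Matrix.of N) j k - (1 : Matrix (Fin r) (Fin r) ℤ) j k) •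
            (Pi.single (t k) 1 : E → ℤ) =
            - ((Pi.single (t j) 1 : E → ℤ) - ∑ i, m j i • (Pi.single (c i) 1 : E → ℤ)) -
            ∑ i, m j i • ((Pi.single (c i) 1 : E → ℤ) - ∑ k, N i k • (Pi.single (t k) 1 : E → ℤ)) := by
          have h5 : ∑ k, (Matrix.of m * Matrix.of N) j k • (Pi.single (t k) 1 : E → ℤ) =
              ∑ i, m j i • ∑ k, N i k • (Pi.single (t k) 1 : E → ℤ) := by
            simp only [Matrix.mul_apply, Matrix.of_apply, Finset.sum_smul, Finset.smul_sum,
              smul_smul]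
            exact Finset.sum_comm
          have h6 : ∑ k, (1 : Matrix (Fin r) (Fin r) ℤ) j k • (Pi.single (t k) 1 : E → ℤ) =
              Pi.single (t j) 1 := by
            rw [Finset.sum_eq_single j]
            · rw [Matrix.one_apply_eq, one_smul]
            · intro k _ hk
              rw [Matrix.one_apply_ne (Ne.symm hk), zero_smul]
            · intro h
              exact absurd (Finset.mem_univ _) h
          simp only [sub_smul, Finset.sum_sub_distrib, smul_sub]
          rw [h5, h6]
          abel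
        rw [h4]
        exact C.sub_mem (C.neg_mem (hm j)) (C.sum_mem fun i _ => C.smul_mem _ (hN i))
      have h7 := congrFun h3 k
      exact sub_eq_zero.1 h7
    have h3 : (Matrix.of m).det * (Matrix.of N).det = 1 := by
      rw [← Matrix.det_mul, h2, Matrix.det_one]
    exact Int.isUnit_iff.1 (IsUnit.of_mul_eq_one _ (by rw [mul_comm]; exact h3))
  · left
    by_cases hinj : Function.Injective c
    · rw [Fintype.linearIndependent_iff] at hc
      push Not at hc
      obtain ⟨y, hy, k, hk⟩ := hc
      have hsum : ∑ e, (∑ i, y i • (Pi.single (c i) 1 : E → ZMod 2)) e • w e = 0 := by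
        rw [Lift_sum, hy]
      obtain ⟨ε, hεC, hε, hε1⟩ := hL.lift _ hsum
      have hYc : ∀ i, (∑ i, y i • (Pi.single (c i) 1 : E → ZMod 2)) (c i) = y i := by
        intro i
        rw [Finset.sum_apply, Finset.sum_eq_single i]
        · rw [Pi.smul_apply, Pi.single_eq_same, smul_eq_mul, mul_one]
        · intro j _ hj
          rw [Pi.smul_apply, Pi.single_eq_of_ne (fun h => hj (hinj h.symm)), smul_zero]
        · intro h
          exact absurd (Finset.mem_univ _) h
      have hdec : ε = ∑ i, ε (c i) • (Pi.single (c i) 1 : E → ℤ) := by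
        funext e
        rw [Finset.sum_apply]
        by_cases h2 : ∃ i, c i = e
        · obtain ⟨k, rfl⟩ := h2
          rw [Finset.sum_eq_single k]
          · rw [Pi.smul_apply, Pi.single_eq_same, smul_eq_mul, mul_one]
          · intro j _ hj
            rw [Pi.smul_apply, Pi.single_eq_of_ne (fun h => hj (hinj h.symm)), smul_zero]
          · intro h
            exact absurd (Finset.mem_univ _) h
        · push Not at h2
          rw [Lift_small (hε1 e) (by
            rw [hε e, Finset.sum_apply]
            refine Finset.sum_eq_zero fun i _ => ?_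
            rw [Pi.smul_apply, Pi.single_eq_of_ne (Ne.symm (h2 i)), smul_zero]),
            Finset.sum_eq_zero]
          intro i _
          rw [Pi.smul_apply, Pi.single_eq_of_ne (Ne.symm (h2 i)), smul_zero]
      refine Matrix.exists_vecMul_eq_zero_iff.1 ⟨fun i => ε (c i), fun h0 => hk ?_, ?_⟩
      · have h1 := hε (c k)
        rw [hYc, congrFun h0 k] at h1
        rw [← h1]
        exact Int.cast_zero
      · refine Lift_unique hL ht _ ?_
        have h4 : ∑ j, (Matrix.vecMul (fun i => ε (c i)) (Matrix.of N)) j •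
            (Pi.single (t j) 1 : E → ℤ) = ε - ∑ i, ε (c i) •
            ((Pi.single (c i) 1 : E → ℤ) - ∑ j, N i j • (Pi.single (t j) 1 : E → ℤ)) := by
          simp only [smul_sub, Finset.sum_sub_distrib]
          rw [← hdec, sub_sub_cancel]
          simp only [Matrix.vecMul, dotProduct, Matrix.of_apply, Finset.sum_smul, Finset.smul_sum,
            smul_smul]
          exact Finset.sum_comm
        rw [h4]
        exact C.sub_mem hεC (C.sum_mem fun i _ => C.smul_mem _ (hN i))
    · unfold Function.Injective at hinj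
      push Not at hinj
      obtain ⟨i, j, hij, hne⟩ := hinj
      have h1 : N i = N j := by
        have h2 : (fun k => N i k - N j k) = 0 := by
          refine Lift_unique hL ht _ ?_
          have h3 : ∑ k, (N i k - N j k) • (Pi.single (t k) 1 : E → ℤ) =
              ((Pi.single (c j) 1 : E → ℤ) - ∑ k, N j k • (Pi.single (t k) 1 : E → ℤ)) -
              ((Pi.single (c i) 1 : E → ℤ) - ∑ k, N i k • (Pi.single (t k) 1 : E → ℤ)) := by
            simp only [sub_smul, Finset.sum_sub_distrib]
            rw [hij]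
            abel
          rw [h3]
          exact C.sub_mem (hN j) (hN i)
        funext k
        have h4 := congrFun h2 k
        exact sub_eq_zero.1 h4
      exact Matrix.det_zero_of_row_eq hne h1

/-- **Sets of vectors whose relations lift are regular** -/
theorem regular_of_lifts (hL : Lifts w C) (X : Finset V) (hX : ∀ v ∈ X, ∃ e, w e = v) :
    Regular X := by
  classical
  obtain ⟨b, hbX, hbs, hbi⟩ := exists_linearIndependent (ZMod 2) (X : Set V)
  have hbf : b.Finite := X.finite_toSet.subset hbX
  have := hbf.fintype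
  obtain ⟨r, hr⟩ : ∃ r, r = Fintype.card b := ⟨_, rfl⟩
  obtain ⟨f⟩ : Nonempty (Fin r ≃ b) := ⟨(Fintype.equivFinOfCardEq hr.symm).symm⟩
  have ht0 : ∀ i, ∃ e, w e = (f i : V) := fun i => hX _ (hbX (f i).2)
  choose t ht using ht0
  have hti : LinearIndependent (ZMod 2) fun i => w (t i) := by
    have h1 : (fun i => w (t i)) = (fun x : b => (x : V)) ∘ f := funext fun i => ht i
    rw [h1]
    exact hbi.comp _ f.injective
  have hrange : Set.range (fun i => w (t i)) = b := by
    ext v
    constructor
    · rintro ⟨i, rfl⟩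
      show w (t i) ∈ b
      rw [ht]
      exact (f i).2
    · intro hv
      refine ⟨f.symm ⟨v, hv⟩, ?_⟩
      beta_reduce
      rw [ht, Equiv.apply_symm_apply]
  have hspan : span (ZMod 2) (Set.range fun i => w (t i)) = span (ZMod 2) (X : Set V) := by
    rw [hrange, hbs]
  obtain ⟨φ, hφ⟩ := LinearMap.exists_leftInverse_of_injective
    (Fintype.linearCombination (ZMod 2) fun i => w (t i))
    (LinearMap.ker_eq_bot'.2 fun y hy => funext (Fintype.linearIndependent_iff.1 hti y (by
      rw [Fintype.linearCombination_apply] at hy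
      exact hy)))
  have hφ' : ∀ y : Fin r → ZMod 2, φ (∑ i, y i • w (t i)) = y := by
    intro y
    have h1 := LinearMap.congr_fun hφ y
    rw [LinearMap.comp_apply, Fintype.linearCombination_apply] at h1
    exact h1
  have hmem : ∀ v ∈ X, ∃ p : E × (Fin r → ℤ), w p.1 = v ∧
      (∀ i, ((p.2 i : ℤ) : ZMod 2) = φ v i) ∧
      (Pi.single p.1 1 : E → ℤ) - ∑ i, p.2 i • (Pi.single (t i) 1 : E → ℤ) ∈ C := by
    intro v hv
    obtain ⟨e, he⟩ := hX v hv
    have h1 : w e ∈ span (ZMod 2) (Set.range fun i => w (t i)) := by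
      rw [he, hspan]
      exact subset_span hv
    obtain ⟨y, hy⟩ := (mem_span_range_iff_exists_fun (ZMod 2)).1 h1
    obtain ⟨m, hm1, hm2, -⟩ := Lift_rel hL hti e y hy.symm
    refine ⟨(e, m), he, fun i => ?_, hm2⟩
    rw [hm1, ← he, ← hy, hφ']
  choose p hp1 hp2 hp3 using hmem
  obtain ⟨L, hL'⟩ : ∃ L : V → Fin r → ℤ, ∀ v (hv : v ∈ X), L v = (p v hv).2 :=
    ⟨fun v => if h : v ∈ X then (p v h).2 else 0, fun v hv => dif_pos hv⟩
  refine ⟨r, φ, L, ?_, fun v hv i => ?_, ?_, ?_⟩
  · rw [← hspan, finrank_span_eq_card hti, Fintype.card_fin]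
  · rw [hL' v hv]
    exact hp2 v hv i
  · intro v hv h0
    rw [← hspan] at hv
    obtain ⟨y, hy⟩ := (mem_span_range_iff_exists_fun (ZMod 2)).1 hv
    rw [← hy, hφ'] at h0
    rw [← hy, h0]
    simp
  · intro x hx
    refine Lift_det hL hti (fun i => (p (x i) (hx i)).1) (fun i => L (x i)) (fun i => ?_)
      fun i => ?_
    · rw [hp1 _ (hx i), hspan]
      exact subset_span (hx i)
    · rw [hL' _ (hx i)]
      exact hp3 _ (hx i)

end

end Pool.Agent.TRL
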