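import Pool.Agent.TRL.Gauss

/-!
# TRL, module Minor: a class of regular sets which is closed under subsets and quotients (helper38)
-/

set_option autoImplicit false

open Submodule Module

namespace Pool.Agent.TRL

section

variable {V : Type} [AddCommGroup V] [Module (ZMod 2) V]

/-- The relations between the vectors of `X` (and perhaps of some more vectors) lift to integral
relations. -/
def Reg (X : Finset V) : Prop :=
  ∃ (E : Type) (_ : Fintype E) (w : E → V) (C : Submodule ℤ (E → ℤ)), Lifts w C ∧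
    ∀ v ∈ X, ∃ e, w e = v

/-- there is a unimodular lift -/
theorem Reg.regular {X : Finset V} (h : Reg X) : Regular X := by
  classical
  obtain ⟨E, _, w, C, hL, hX⟩ := h
  exact regular_of_lifts hL X hX

theorem Reg.mono {X Y : Finset V} (h : Reg X) (hYX : Y ⊆ X) : Reg Y := by
  obtain ⟨E, _, w, C, hL, hX⟩ := h
  exact ⟨E, _, w, C, hL, fun v hv => hX v (hYX hv)⟩

/-- injective linear maps -/
theorem Reg.map {W : Type} [AddCommGroup W] [Module (ZMod 2) W] [DecidableEq W] {X : Finset V}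
    (h : Reg X) (f : V →ₗ[ZMod 2] W) (hf : Function.Injective f) : Reg (X.image f) := by
  obtain ⟨E, _, w, C, hL, hX⟩ := h
  have key : ∀ y : E → ZMod 2, ∑ e, y e • f (w e) = f (∑ e, y e • w e) := by
    intro y
    rw [map_sum]
    refine Finset.sum_congr rfl fun e _ => ?_
    rw [map_smul]
  refine ⟨E, _, fun e => f (w e), C, ⟨fun y hy => ?_, fun ε hε => ?_, hL.sat⟩, fun v hv => ?_⟩
  · rw [key] at hy
    exact hL.lift y (hf (by rw [hy, map_zero]))
  · rw [key (fun e => ((ε e : ℤ) : ZMod 2)), hL.red ε hε, map_zero]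
  · obtain ⟨u, hu, rfl⟩ := Finset.mem_image.1 hv
    obtain ⟨e, rfl⟩ := hX u hu
    exact ⟨e, rfl⟩

private theorem Minor_sum {E : Type} [Fintype E] [DecidableEq E] (w : E → V) (y : E → ZMod 2)
    (e₀ : E) (a : ZMod 2) : ∑ e, (y + Pi.single e₀ a : E → ZMod 2) e • w e =
      ∑ e, y e • w e + a • w e₀ := by
  simp only [Pi.add_apply, add_smul, Finset.sum_add_distrib]
  congr 1
  rw [Finset.sum_eq_single e₀]
  · rw [Pi.single_eq_same]
  · intro e _ he
    rw [Pi.single_eq_of_ne he, zero_smul]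
  · intro h
    exact absurd (Finset.mem_univ _) h

/-- **quotients** by a vector of the set -/
theorem Reg.quot {X : Finset V} (h : Reg X) {v : V} (hv : v ∈ X)
    [DecidableEq (V ⧸ span (ZMod 2) {v})] : Reg (X.image (span (ZMod 2) {v}).mkQ) := by
  classical
  obtain ⟨E, _, w, C, hL, hX⟩ := h
  obtain ⟨e₀, he₀⟩ := hX v hv
  have hsum : ∀ y : E → ZMod 2, ∑ e, y e • (span (ZMod 2) {v}).mkQ (w e) =
      (span (ZMod 2) {v}).mkQ (∑ e, y e • w e) := by
    intro y
    rw [map_sum]
    refine Finset.sum_congr rfl fun e _ => ?_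
    rw [map_smul]
  have hmem : ∀ v' ∈ X.image (span (ZMod 2) {v}).mkQ,
      ∃ e, (span (ZMod 2) {v}).mkQ (w e) = v' := by
    intro v' hv'
    obtain ⟨u, hu, rfl⟩ := Finset.mem_image.1 hv'
    obtain ⟨e, rfl⟩ := hX u hu
    exact ⟨e, rfl⟩
  by_cases hv0 : v = 0
  · refine ⟨E, _, fun e => (span (ZMod 2) {v}).mkQ (w e), C,
      ⟨fun y hy => ?_, fun ε hε => ?_, hL.sat⟩, hmem⟩
    · rw [hsum, Submodule.mkQ_apply, Submodule.Quotient.mk_eq_zero, hv0, mem_span_singleton] at hy
      obtain ⟨a, ha⟩ := hy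
      refine hL.lift y ?_
      rw [← ha, smul_zero]
    · rw [hsum (fun e => ((ε e : ℤ) : ZMod 2)), hL.red ε hε, map_zero]
  · obtain ⟨C', hC'⟩ : ∃ C' : Submodule ℤ (E → ℤ), C' = C ⊔ span ℤ {Pi.single e₀ 1} := ⟨_, rfl⟩
    have hCC : C ≤ C' := by
      rw [hC']
      exact le_sup_left
    have hsC : (Pi.single e₀ 1 : E → ℤ) ∈ C' := by
      rw [hC']
      exact mem_sup_right (mem_span_singleton_self _)
    have hdec : ∀ ε ∈ C', ∃ c ∈ C, ∃ a : ℤ, ε = c + a • (Pi.single e₀ 1 : E → ℤ) := by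
      intro ε hε
      rw [hC', mem_sup] at hε
      obtain ⟨c, hc, d, hd, rfl⟩ := hε
      obtain ⟨a, rfl⟩ := mem_span_singleton.1 hd
      exact ⟨c, hc, a, rfl⟩
    have hred : ∀ (c : E → ℤ) (a : ℤ), ∑ e, (((c + a • (Pi.single e₀ 1 : E → ℤ)) e : ℤ) :
        ZMod 2) • w e = ∑ e, ((c e : ℤ) : ZMod 2) • w e + (a : ZMod 2) • w e₀ := by
      intro c a
      rw [← Minor_sum]
      refine Finset.sum_congr rfl fun e _ => congrArg (fun t : ZMod 2 => t • w e) ?_
      rw [Pi.add_apply, Pi.add_apply, Int.cast_add, Pi.smul_apply, smul_eq_mul, Int.cast_mul]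
      by_cases he : e = e₀
      · rw [he, Pi.single_eq_same, Pi.single_eq_same, Int.cast_one, mul_one]
      · rw [Pi.single_eq_of_ne he, Pi.single_eq_of_ne he, Int.cast_zero, mul_zero]
    refine ⟨E, _, fun e => (span (ZMod 2) {v}).mkQ (w e), C',
      ⟨fun y hy => ?_, fun ε hε => ?_, fun ε hε => ?_⟩, hmem⟩
    · rw [hsum, Submodule.mkQ_apply, Submodule.Quotient.mk_eq_zero, mem_span_singleton] at hy
      obtain ⟨a, ha⟩ := hy
      have h1 : ∑ e, (y + Pi.single e₀ a : E → ZMod 2) e • w e = 0 := by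
        rw [Minor_sum, ← ha, he₀]
        exact ZModModule.add_self _
      obtain ⟨ε, hεC, hε, hε1⟩ := hL.lift _ h1
      have h2 : ∀ e, e ≠ e₀ → ((ε e : ℤ) : ZMod 2) = y e := by
        intro e he
        rw [hε, Pi.add_apply, Pi.single_eq_of_ne he, add_zero]
      have h3 : ∃ t : ℤ, ((ε e₀ + t : ℤ) : ZMod 2) = y e₀ ∧ |ε e₀ + t| ≤ 1 := by
        by_cases h4 : y e₀ = 0
        · exact ⟨- ε e₀, by rw [add_neg_cancel, h4, Int.cast_zero], by rw [add_neg_cancel]; simp⟩
        · have h5 : ∀ t : ZMod 2, t ≠ 0 → t = 1 := by decide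
          exact ⟨1 - ε e₀, by rw [add_sub_cancel, h5 _ h4, Int.cast_one], by
            rw [add_sub_cancel]; simp⟩
      obtain ⟨t, ht1, ht2⟩ := h3
      refine ⟨ε + t • (Pi.single e₀ 1 : E → ℤ), C'.add_mem (hCC hεC) (C'.smul_mem _ hsC),
        fun e => ?_, fun e => ?_⟩
      · rw [Pi.add_apply, Pi.smul_apply, smul_eq_mul]
        by_cases he : e = e₀
        · rw [he, Pi.single_eq_same, mul_one]
          exact ht1
        · rw [Pi.single_eq_of_ne he, mul_zero, add_zero]
          exact h2 e he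
      · rw [Pi.add_apply, Pi.smul_apply, smul_eq_mul]
        by_cases he : e = e₀
        · rw [he, Pi.single_eq_same, mul_one]
          exact ht2
        · rw [Pi.single_eq_of_ne he, mul_zero, add_zero]
          exact hε1 e
    · rw [hsum (fun e => ((ε e : ℤ) : ZMod 2))]
      obtain ⟨c, hc, a, rfl⟩ := hdec ε hε
      rw [hred, hL.red c hc, zero_add, he₀, map_smul, Submodule.mkQ_apply,
        (Submodule.Quotient.mk_eq_zero _).2 (mem_span_singleton_self v), smul_zero]
    · obtain ⟨c, hc, a, hca⟩ := hdec _ hε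
      have h1 := hred c a
      rw [← hca, hL.red c hc, zero_add, he₀] at h1
      have h2 : ∑ e, ((((2 : ℤ) • ε) e : ℤ) : ZMod 2) • w e = 0 := by
        refine Finset.sum_eq_zero fun e _ => ?_
        rw [Pi.smul_apply, smul_eq_mul, Int.cast_mul]
        have h3 : ((2 : ℤ) : ZMod 2) = 0 := by decide
        rw [h3, zero_mul, zero_smul]
      rw [h2] at h1
      have h3 : ((a : ℤ) : ZMod 2) = 0 := by
        rcases smul_eq_zero.1 h1.symm with h4 | h4
        · exact h4
        · exact absurd h4 hv0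
      obtain ⟨b, rfl⟩ := (ZMod.intCast_zmod_eq_zero_iff_dvd a 2).1 h3
      have h4 : ε - b • (Pi.single e₀ 1 : E → ℤ) ∈ C := by
        apply hL.sat
        have h5 : (2 : ℤ) • (ε - b • (Pi.single e₀ 1 : E → ℤ)) = c := by
          rw [smul_sub, hca, smul_smul]
          push_cast
          abel
        rw [h5]
        exact hc
      have h5 : ε = (ε - b • (Pi.single e₀ 1 : E → ℤ)) + b • (Pi.single e₀ 1 : E → ℤ) := by
        abel
      rw [h5]
      exact C'.add_mem (hCC h4) (C'.smul_mem _ hsC)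

end

variable {n : ℕ}

open Pool.Agent.SPT Pool.Agent.Helper16.Knotoid in
/-- **knotoid diagrams** -/
theorem knotoid_reg (D : GaussDiagram n) (σ : Fin n → Bool)
    (X : Finset (Fin n → ZMod 2)) (hX : X ⊆ rows (D.Cut σ)) : Reg X := by
  refine ⟨Fin n, inferInstance, fun c => D.gmat σ c, Cuts D σ, Gauss_lifts D σ, fun v hv => ?_⟩
  have h1 := hX hv
  unfold rows at h1
  obtain ⟨c, -, rfl⟩ := Finset.mem_image.1 h1
  exact ⟨c, (row_eq D σ c).symm⟩

open Pool.Agent.SPT Pool.Agent.Helper16.Knotoid in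
/-- **knot diagrams** -/
theorem knot_reg (g : GaussJones.Code n) (e σ : Fin n → Bool)
    (X : Finset (Fin n → ZMod 2)) (hX : X ⊆ rows (GaussJones.Cut g e σ)) : Reg X := by
  have h0 : GaussJones.Cut g e σ = (UNI.cutOpen g e).Cut σ := by
    funext i j
    exact propext (UNI.cut_closed g e _ i j)
  rw [h0] at hX
  exact knotoid_reg (UNI.cutOpen g e) σ X hX

end Pool.Agent.TRL
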